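import Pool.Agent.H611C.Final

/-!
# Complete chains which are not impartible
-/

set_option autoImplicit false

open Set Cardinal

namespace Pool.Agent.Results.MP_24b5da_lc.PartibleChains

open H611C

/-- Let `α` be a complete chain with at least two points which does not contain the rationals, or
has only countable families of pairwise disjoint nonempty intervals `[a, b)`, or has at most
continuum many points and only families of fewer than continuum many such intervals, or has a dense
set `E` such that there are at most `#α` maps from `E` to `α`.  Then `α` is the union of two sets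
without copies of `α`.  No complete chain contains the lexicographic product `α · 2`. -/
theorem result (α : Type) [CompleteLinearOrder α] :
    (Nontrivial α →
      (IsEmpty (ℚ ↪o α) ∨
      (∀ (I : Type) (a b : I → α), (∀ i, a i < b i) →
        (∀ i j, i ≠ j → Disjoint (Ico (a i) (b i)) (Ico (a j) (b j))) → Countable I) ∨
      (#α ≤ 𝔠 ∧ ∀ (I : Type) (a b : I → α), (∀ i, a i < b i) →
        (∀ i j, i ≠ j → Disjoint (Ico (a i) (b i)) (Ico (a j) (b j))) → #I < 𝔠) ∨
      ∃ E : Set α, (∀ x y : α, x < y → ∃ e ∈ E, x ≤ e ∧ e ≤ y) ∧ #(E → α) ≤ #α) →
      ∃ A B : Set α, A ∪ B = Set.univ ∧ IsEmpty (α ↪o A) ∧ IsEmpty (α ↪o B)) ∧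
    ¬ ∃ g : α ×ₗ Bool → α, StrictMono g := by
  refine ⟨fun hα h => ?_, no_double α⟩
  exact main_partition h

end Pool.Agent.Results.MP_24b5da_lc.PartibleChains
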